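import Pool.Agent.Q82.FOneB

/-!
MP_0880e2_an, Q1.  For every complex Banach space `X` and all `p, q ∈ [1, ∞]`: upper
`ℓ^q(L^p)`-decompositions on the circle are equivalent to upper `ℓ^q(L^p)`-decompositions on the
line, and the same holds for lower `ℓ^q(L^p)`-decompositions.

All definitions are in `Pool.Agent.Q82.FDef`: `IsIntervalPartition`, `lq`, `trig`, `IsTrigPoly`,
`circleProj`, `lineProj`, `IsSc`, `UpperCircle`, `LowerCircle`, `UpperLine`, `LowerLine`,
`Nondegenerate`.
-/

open MeasureTheory
open scoped ENNReal NNReal

namespace Pool.Agent.Results.MP_0880e2_an.CircleLineEquivalence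

open Pool.Agent.Q82.FDec

universe u

theorem upper_to_line (X : Type u) [NormedAddCommGroup X] [NormedSpace ℂ X] [CompleteSpace X]
    {p q : ℝ≥0∞} (hp : 1 ≤ p) (hq : 1 ≤ q) {C : Set (Set ℝ) → Prop}
    (hC : ∀ P, IsIntervalPartition P → C P → P.Countable) (h : UpperCircle X p q) :
    UpperLine C X p q := by
  rcases subsingleton_or_nontrivial X with hX | hX
  · refine ⟨1, one_pos, ?_⟩
    intro P _ _ f _
    have : f = 0 := Subsingleton.elim _ _
    rw [this, eLpNorm_zero]
    exact zero_le
  · by_cases h1 : p = 1
    · subst h1
      have := q_one_of_one hq h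
      subst this
      exact upperLine_one le_rfl hC
    · by_cases h2 : p = ⊤
      · subst h2
        have := q_one_of_top hq h
        subst this
        exact upperLine_one le_top hC
      · exact h.toLine_mid (lt_of_le_of_ne hp (Ne.symm h1)) h2 hq hC

/-- The circle and the line properties are equivalent.  On the line the partitions are those into
intervals of positive length, or the countable ones (one-point intervals allowed), or, for the
lower property, all partitions into intervals. -/
theorem result (X : Type u) [NormedAddCommGroup X] [NormedSpace ℂ X] [CompleteSpace X]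
    (p q : ℝ≥0∞) (hp : 1 ≤ p) (hq : 1 ≤ q) :
    ((UpperCircle X p q ↔ UpperLine Nondegenerate X p q) ∧
      (UpperCircle X p q ↔ UpperLine Set.Countable X p q)) ∧
    ((LowerCircle X p q ↔ LowerLine Nondegenerate X p q) ∧
      (LowerCircle X p q ↔ LowerLine Set.Countable X p q) ∧
      (LowerCircle X p q ↔ LowerLine (fun _ => True) X p q)) := by
  refine ⟨⟨⟨?_, ?_⟩, ⟨?_, ?_⟩⟩, ⟨⟨?_, ?_⟩, ⟨?_, ?_⟩, ⟨?_, ?_⟩⟩⟩
  · exact upper_to_line X hp hq fun P hP h => countable_of_nondegenerate hP h
  · exact UpperLine.toCircle hp hq fun P hP => lift_nondegenerate hP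
  · exact upper_to_line X hp hq fun P _ h => h
  · exact UpperLine.toCircle hp hq fun P hP => lift_countable hP
  · exact fun h => h.toLine hp hq _
  · exact LowerLine.toCircle hp hq fun P hP => lift_nondegenerate hP
  · exact fun h => h.toLine hp hq _
  · exact LowerLine.toCircle hp hq fun P hP => lift_countable hP
  · exact fun h => h.toLine hp hq _
  · exact LowerLine.toCircle hp hq fun P hP => trivial

end Pool.Agent.Results.MP_0880e2_an.CircleLineEquivalence
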